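import Mathlib
import Pool.Agent.H.MP_1b3842_gt.A

set_option autoImplicit false

namespace Pool.Agent.Results.MP_1b3842_gt.UnderCH

open Set Filter Cardinal Pool.Agent.H.MP_1b3842_gt

/-- the bounding number. -/
noncomputable def bNum : Cardinal.{0} :=
  sInf {κ | ∃ D : Set (ℕ → ℕ), (∀ a ∈ D, StrictMono a) ∧ #D = κ ∧
    ¬ ∃ g : ℕ → ℕ, StrictMono g ∧ ∀ a ∈ D, ∀ᶠ n in atTop, a n ≤ g n}

/-- scales for the cofinite filter. -/
def Scale (X : Set (ℕ → ℕ)) : Prop :=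
  (∀ x ∈ X, StrictMono x) ∧ bNum ≤ #X ∧ ∀ b : ℕ → ℕ, StrictMono b →
    ∃ c : ℕ → ℕ, StrictMono c ∧ (∃ᶠ n in atTop, b n ≤ c n) ∧
      #{x | x ∈ X ∧ ¬ ∀ᶠ n in atTop, c n ≤ x n} < bNum

/-- the Menger property. -/
def Menger (Y : Type) [TopologicalSpace Y] : Prop :=
  ∀ U : ℕ → Set (Set Y), (∀ n, (∀ v ∈ U n, IsOpen v) ∧ ⋃₀ U n = Set.univ) →
    ∃ F : ℕ → Set (Set Y), (∀ n, (F n).Finite ∧ F n ⊆ U n) ∧ ∀ y, ∃ᶠ n in atTop, y ∈ ⋃₀ F n

theorem enum {s : Set ℕ} (hs : s.Infinite) : ∃ a : ℕ → ℕ, StrictMono a ∧ range a = s :=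
  ⟨Nat.nth (· ∈ s), Nat.nth_strictMono hs, Nat.range_nth_of_infinite hs⟩

theorem b_gt (h : {κ | ∃ D : Set (ℕ → ℕ), (∀ a ∈ D, StrictMono a) ∧ #D = κ ∧
    ¬ ∃ g : ℕ → ℕ, StrictMono g ∧ ∀ a ∈ D, ∀ᶠ n in atTop, a n ≤ g n}.Nonempty) : ℵ₀ < bNum := by
  obtain ⟨D, h1, h2, h3⟩ := csInf_mem h
  by_contra hle
  have hD : D.Countable := by
    rw [← le_aleph0_iff_set_countable, h2]
    exact not_lt.mp hle
  apply h3
  rcases D.eq_empty_or_nonempty with rfl | hne
  · exact ⟨id, strictMono_id, fun a ha => absurd ha (notMem_empty a)⟩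
  obtain ⟨d, rfl⟩ := hD.exists_eq_range hne
  refine ⟨fun n => ∑ i ∈ Finset.range (n + 1), d i n + n, strictMono_nat_of_lt_succ fun n => ?_, ?_⟩
  · have h4 : ∑ i ∈ Finset.range (n + 1), d i n ≤ ∑ i ∈ Finset.range (n + 1), d i (n + 1) :=
      Finset.sum_le_sum fun i _ => (h1 _ ⟨i, rfl⟩).monotone (by omega)
    rw [Finset.sum_range_succ _ (n + 1)]
    omega
  · rintro _ ⟨i, rfl⟩
    refine eventually_atTop.mpr ⟨i, fun n hn => ?_⟩
    have := Finset.single_le_sum (f := fun i => d i n) (s := Finset.range (n + 1))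
      (fun _ _ => Nat.zero_le _) (Finset.mem_range.mpr (show i < n + 1 by omega))
    simp only at this ⊢
    omega

theorem cyl {X : Set (ℕ → ℕ)} {a : Set X} (ha : IsOpen a) {p : X} (hp : p ∈ a) :
    ∃ m, ∀ x : X, (∀ j < m, x.1 j = p.1 j) → x ∈ a := by
  obtain ⟨a', ha', rfl⟩ := isOpen_induced_iff.mp ha
  obtain ⟨I, w, h1, h2⟩ := isOpen_pi_iff.mp ha' p.1 hp
  refine ⟨I.sup id + 1, fun x hx => h2 fun j hj => ?_⟩
  have : j ≤ I.sup id := Finset.le_sup (f := id) hj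
  rw [hx j (by omega)]
  exact (h1 j hj).2

theorem result (hCH : continuum.{0} = aleph 1) :
    ∃ X : Set (ℕ → ℕ), Scale X ∧ Menger X := by
  classical
  obtain ⟨I, _, b, G, hG, hc, hinf, hb, hgap, hS⟩ := tower hCH
  obtain ⟨X, hX⟩ : ∃ X : Set (ℕ → ℕ), ∀ a, a ∈ X ↔
      StrictMono a ∧ ∃ t m, ∀ j, m ≤ j → (j ∈ range a ↔ j ∈ b t) := ⟨_, fun a => Iff.rfl⟩
  have hcount : ∀ u, {a : ℕ → ℕ | StrictMono a ∧ ∃ t, t < u ∧ ∃ m, ∀ j, m ≤ j →
      (j ∈ range a ↔ j ∈ b t)}.Countable := by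
    intro u
    refine Countable.mono (s₂ := ⋃ t ∈ Iio u, ⋃ m : ℕ, {a : ℕ → ℕ | StrictMono a ∧ ∀ j, m ≤ j →
      (j ∈ range a ↔ j ∈ b t)}) ?_ ((hc u).biUnion fun t _ => countable_iUnion fun m => ?_)
    · rintro a ⟨h1, t, ht, m, hm⟩
      exact mem_iUnion₂.mpr ⟨t, ht, mem_iUnion.mpr ⟨m, h1, hm⟩⟩
    · refine countable_of_injective_of_countable_image
        (f := fun a => (Finset.range m).filter (· ∈ range a)) ?_ (to_countable _)
      rintro a ⟨h1, h2⟩ a' ⟨h3, h4⟩ h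
      refine (h1.range_inj h3).mp (Set.ext fun j => ?_)
      by_cases hj : m ≤ j
      · rw [h2 j hj, h4 j hj]
      · have h5 := Finset.ext_iff.mp h j
        simpa only [Finset.mem_filter, Finset.mem_range, show j < m by omega, true_and] using h5
  have hunb : ¬ ∃ g : ℕ → ℕ, StrictMono g ∧ ∀ a ∈ X, ∀ᶠ n in atTop, a n ≤ g n := by
    rintro ⟨g, _, hg⟩
    obtain ⟨t, ht⟩ := hG fun k => g k + 1
    obtain ⟨a, ha, ha'⟩ := enum (hinf t)
    obtain ⟨N, hN⟩ := eventually_atTop.mp (hg a ((hX a).mpr ⟨ha, t, 0, fun j _ => by rw [ha']⟩))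
    obtain ⟨k, hk, hk'⟩ := hgap t N
    have h1 := hk' (a k) (ha' ▸ mem_range_self k)
    have h2 : k ≤ a k := ha.le_apply
    have h3 := hN k hk
    rw [ht] at h1
    simp only at h1
    omega
  have hmem : #X ∈ {κ | ∃ D : Set (ℕ → ℕ), (∀ a ∈ D, StrictMono a) ∧ #D = κ ∧
      ¬ ∃ g : ℕ → ℕ, StrictMono g ∧ ∀ a ∈ D, ∀ᶠ n in atTop, a n ≤ g n} :=
    ⟨X, fun a ha => ((hX a).mp ha).1, rfl, hunb⟩
  refine ⟨X, ⟨fun a ha => ((hX a).mp ha).1, csInf_le' hmem, fun g hg => ?_⟩, fun U hU => ?_⟩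
  · obtain ⟨u, hu⟩ := hG fun k => g (k + 1)
    obtain ⟨c, hc1, hc2⟩ := enum (s := {x | x ∈ b u ∨ ∃ y ∈ b u, x = y + 1})
      ((hinf u).mono fun x hx => Or.inl hx)
    refine ⟨c, hc1, frequently_atTop.mpr fun m => ?_, lt_of_le_of_lt ?_ (b_gt ⟨_, hmem⟩)⟩
    · obtain ⟨k, hk, hk'⟩ := hgap u m
      refine ⟨k + 1, by omega, ?_⟩
      have h1 : k + 1 ≤ c (k + 1) := hc1.le_apply
      have h2 : c (k + 1) ∈ {x | x ∈ b u ∨ ∃ y ∈ b u, x = y + 1} := hc2 ▸ mem_range_self _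
      rw [hu] at hk'
      rcases h2 with h | ⟨y, hy, h⟩
      · have := hk' _ h
        simp only at this
        omega
      · have := hk' _ hy
        simp only at this
        omega
    · rw [le_aleph0_iff_set_countable]
      refine (hcount u).mono ?_
      rintro x ⟨hx, hx'⟩
      obtain ⟨h1, t, m, hm⟩ := (hX x).mp hx
      refine ⟨h1, t, ?_, m, hm⟩
      by_contra hut
      obtain ⟨m', hm'⟩ := hb u t (not_lt.mp hut)
      have h2 : ∀ j ∈ range x, m + m' ≤ j → j ∈ b u := fun j hj hj' =>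
        hm' j ((hm j (by omega)).mp hj) (by omega)
      obtain ⟨N, hN⟩ := dom hc1 h1 (m := m + m') (fun j hj hj' => hc2 ▸ Or.inl (h2 j hj hj'))
        (Set.infinite_of_forall_exists_gt fun a => by
          obtain ⟨y, hy, hy'⟩ := (hinf u).exists_gt (a + m + m')
          obtain ⟨k, hk, hk'⟩ := hgap u (y + 1)
          have h3 : ∃ j, y < j ∧ j ∉ b u := ⟨k, by omega, fun h => by
            have h4 := hk' k h
            have h5 : k + 1 ≤ g (k + 1) := hg.le_apply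
            rw [hu] at h4
            simp only at h4
            omega⟩
          obtain ⟨h4, h5⟩ := Nat.find_spec h3
          refine ⟨Nat.find h3, ⟨hc2 ▸ Or.inr ⟨Nat.find h3 - 1, ?_, by omega⟩,
            fun h => h5 (h2 _ h (by omega))⟩, by omega⟩
          by_cases h6 : Nat.find h3 - 1 = y
          · rw [h6]; exact hy
          · by_contra h7
            exact Nat.find_min h3 (show Nat.find h3 - 1 < Nat.find h3 by omega) ⟨by omega, h7⟩)
      exact hx' (eventually_atTop.mpr ⟨N, hN⟩)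
  · have hcov : ∀ n (p : X), ∃ v ∈ U n, ∃ m, ∀ x : X,
        (∀ j < m, j ∈ range p.1 ↔ j ∈ range x.1) → x ∈ v := by
      intro n p
      have h0 : p ∈ ⋃₀ U n := by rw [(hU n).2]; trivial
      obtain ⟨v, hv, hp⟩ := h0
      obtain ⟨r, hr⟩ := cyl ((hU n).1 v hv) hp
      have h1 := ((hX _).mp p.2).1
      exact ⟨v, hv, p.1 r, fun x hx => hr x fun j hj =>
        agree h1 ((hX _).mp x.2).1 hx j (h1 hj)⟩
    choose vv hvv mm hmm using hcov
    obtain ⟨M, u, h1, h2⟩ := hS (fun n m => {s | ∃ F ⊆ U n, F.Finite ∧ ∀ x : X,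
        (∀ j, n ≤ j → j < m → (j ∈ range x.1 ↔ j ∈ s)) → x ∈ ⋃₀ F}) (by
      intro t n
      have h3 : ∀ p : Finset ℕ, ∃ a : X, ∀ j, j ∈ range a.1 ↔ j ∈ p ∨ (n ≤ j ∧ j ∈ b t) := by
        intro p
        obtain ⟨a, ha, ha'⟩ := enum (s := {j | j ∈ p ∨ (n ≤ j ∧ j ∈ b t)})
          (Set.infinite_of_forall_exists_gt fun a => by
            obtain ⟨y, hy, hy'⟩ := (hinf t).exists_gt (a + n)
            exact ⟨y, Or.inr ⟨by omega, hy⟩, by omega⟩)
        refine ⟨⟨a, (hX a).mpr ⟨ha, t, p.sup id + n + 1, fun j hj => ?_⟩⟩, fun j => by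
          simp only [ha']; rfl⟩
        rw [ha']
        refine ⟨?_, fun h => Or.inr ⟨by omega, h⟩⟩
        rintro (h | h)
        · have : j ≤ p.sup id := Finset.le_sup (f := id) h
          omega
        · exact h.2
      choose a ha using h3
      refine ⟨(Finset.range n).powerset.sup fun p => mm n (a p),
        (fun p => vv n (a p)) '' ((Finset.range n).powerset : Finset (Finset ℕ)), ?_,
        (Finset.finite_toSet _).image _, fun x hx => ?_⟩
      · rintro _ ⟨p, _, rfl⟩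
        exact hvv _ _
      · have h4 : (Finset.range n).filter (· ∈ range x.1) ∈ (Finset.range n).powerset :=
          Finset.mem_powerset.mpr (Finset.filter_subset _ _)
        refine ⟨_, ⟨_, Finset.mem_coe.mpr h4, rfl⟩, hmm _ _ x fun j hj => ?_⟩
        have h5 := hj.trans_le (Finset.le_sup (f := fun p => mm n (a p)) h4)
        rw [ha]
        simp only [Finset.mem_filter, Finset.mem_range]
        by_cases h6 : j < n
        · simp only [h6, true_and, show ¬ n ≤ j by omega, false_and, or_false]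
        · rw [hx j (by omega) h5]
          simp only [h6, false_and, false_or, Finset.mem_filter, Finset.mem_Ico, h5, and_true])
    choose F hF1 hF2 hF3 using h1
    have h3 : {x : X | ∃ t, t < u ∧ ∃ m, ∀ j, m ≤ j → (j ∈ range x.1 ↔ j ∈ b t)}.Countable :=
      Set.Countable.mono (fun x hx => by exact ⟨((hX _).mp x.2).1, hx⟩)
        ((hcount u).preimage_of_injOn (f := (Subtype.val : X → ℕ → ℕ)) Subtype.val_injective.injOn)
    obtain ⟨e, he⟩ := Set.countable_iff_exists_injOn.mp h3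
    refine ⟨fun n => F n ∪ vv n '' ({x : X | ∃ t, t < u ∧ ∃ m, ∀ j, m ≤ j →
        (j ∈ range x.1 ↔ j ∈ b t)} ∩ e ⁻¹' Iic n), fun n => ⟨(hF2 n).union (Finite.image _ ?_),
        union_subset (hF1 n) ?_⟩, fun x => frequently_atTop.mpr fun N => ?_⟩
    · exact Finite.of_injOn (f := e) (t := Iic n) (fun x hx => hx.2)
        (he.mono inter_subset_left) (finite_Iic n)
    · rintro _ ⟨p, _, rfl⟩
      exact hvv _ _
    · obtain ⟨_, t, m, hm⟩ := (hX _).mp x.2
      rcases lt_or_ge t u with h | h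
      · exact ⟨N + e x, by omega, vv _ x, Or.inr ⟨x, ⟨⟨t, h, m, hm⟩, by
          show e x ≤ N + e x; omega⟩, rfl⟩, hmm _ _ x fun _ _ => Iff.rfl⟩
      · obtain ⟨n, hn, hn'⟩ := h2 t h (N + m)
        obtain ⟨w, hw, hw'⟩ := hF3 n x fun j h4 h5 => by
          rw [hm j (by omega), hn' j h4 h5]
          simp only [Finset.mem_filter, Finset.mem_Ico, h4, h5, true_and]
        exact ⟨n, by omega, w, Or.inl hw, hw'⟩

end Pool.Agent.Results.MP_1b3842_gt.UnderCH
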